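import Pool.Agent.Helper7.KT.St

/-! # Project KT (MP_5176ab_co): module BET -/

set_option autoImplicit false

namespace Pool.Agent.Helper24.KT

open Finset SimpleGraph Filter Topology
open EX Pool.Agent.Helper7.KT

open scoped Classical

theorem hBET : StBET := by
  intro U _ G r σ hr hσ hMI β hβ ε hε
  set k : ℕ := r - 1 with hk
  have hk1 : 1 ≤ k := by omega
  set B : ℝ := max ((σ : ℝ) - 1) β with hB
  have hσ' : (1 : ℝ) ≤ σ := by exact_mod_cast hσ
  have hB0 : 0 ≤ B := le_trans (by linarith) (le_max_left _ _)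
  have hBσ : (σ : ℝ) - 1 ≤ B := le_max_left _ _
  have hBβ : β ≤ B := le_max_right _ _
  set D : ℝ := 2 ^ k * (k.factorial : ℝ) with hD
  have hDpos : 0 < D := by positivity
  have hε3 : 0 < ε / 3 := by linarith
  obtain ⟨N0, hN0⟩ := Filter.eventually_atTop.1 (hβ (ε / 3) hε3)
  set K1 : ℝ := ∑ m ∈ range N0, (exK m r G : ℝ) with hK1
  have hK10 : 0 ≤ K1 := Finset.sum_nonneg fun m _ => Nat.cast_nonneg _
  have hexK : ∀ m : ℕ, (exK m r G : ℝ) ≤ (B + ε / 3) * (m.choose k : ℝ) + K1 := by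
    intro m
    have hC : (0 : ℝ) ≤ (m.choose k : ℝ) := Nat.cast_nonneg _
    by_cases hm : N0 ≤ m
    · have h1 := hN0 m hm
      have h2 : (β + ε / 3) * (m.choose k : ℝ) ≤ (B + ε / 3) * (m.choose k : ℝ) :=
        mul_le_mul_of_nonneg_right (by linarith) hC
      linarith
    · have h1 : (exK m r G : ℝ) ≤ K1 :=
        Finset.single_le_sum (f := fun m => (exK m r G : ℝ)) (fun i _ => Nat.cast_nonneg _)
          (mem_range.2 (not_le.1 hm))
      have h2 : 0 ≤ (B + ε / 3) * (m.choose k : ℝ) := mul_nonneg (by linarith) hC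
      linarith
  have hε2 : 0 < ε / (3 * D) := by positivity
  filter_upwards [hMI (ε / (3 * D)) hε2, eventually_ge_atTop (2 * k + 1),
    eventually_ge_atTop (⌈3 * K1 * D / ε⌉₊)] with n hn hn2 hn3
  obtain ⟨x, hx, hle⟩ := hn
  have hCle : ((n - x).choose k : ℝ) ≤ (n.choose k : ℝ) := by
    exact_mod_cast Nat.choose_le_choose k (Nat.sub_le n x)
  have hC0 : (0 : ℝ) ≤ ((n - x).choose k : ℝ) := Nat.cast_nonneg _
  have hge : (n : ℝ) ^ k / D ≤ (n.choose k : ℝ) := EX.UB.choose_ge n k (by omega)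
  have hpow : ε / (3 * D) * (n : ℝ) ^ k ≤ ε / 3 * (n.choose k : ℝ) := by
    have e1 : ε / (3 * D) * (n : ℝ) ^ k = ε / 3 * ((n : ℝ) ^ k / D) := by
      field_simp
    rw [e1]
    exact mul_le_mul_of_nonneg_left hge hε3.le
  have hn1 : (1 : ℝ) ≤ n := by
    have : 1 ≤ n := by omega
    exact_mod_cast this
  have hK : K1 ≤ ε / 3 * (n.choose k : ℝ) := by
    have h1 : 3 * K1 * D / ε ≤ n := (Nat.le_ceil _).trans (by exact_mod_cast hn3)
    have h2 : (n : ℝ) ≤ (n : ℝ) ^ k := le_self_pow₀ hn1 (by omega)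
    have h3 : 3 * K1 * D / ε ≤ (n : ℝ) ^ k := h1.trans h2
    rw [div_le_iff₀ hε] at h3
    have h4 : K1 ≤ ε / 3 * ((n : ℝ) ^ k / D) := by
      have e2 : ε / 3 * ((n : ℝ) ^ k / D) = (n : ℝ) ^ k * ε / (3 * D) := by
        field_simp
      rw [e2, le_div_iff₀ (by positivity)]
      linarith
    exact h4.trans (mul_le_mul_of_nonneg_left hge hε3.le)
  have h5 := hexK (n - x)
  have h6 : ((σ : ℝ) - 1) * ((n.choose k : ℝ) - ((n - x).choose k : ℝ)) ≤
      B * ((n.choose k : ℝ) - ((n - x).choose k : ℝ)) :=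
    mul_le_mul_of_nonneg_right hBσ (by linarith)
  have h7 : ε / 3 * ((n - x).choose k : ℝ) ≤ ε / 3 * (n.choose k : ℝ) :=
    mul_le_mul_of_nonneg_left hCle hε3.le
  nlinarith [hle, h5, h6, h7, hK, hpow]

end Pool.Agent.Helper24.KT
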