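import Pool.Agent.Helper52.KT.St

set_option autoImplicit false

namespace Pool.Agent.Helper24.KT

open Pool.Agent.Helper26.Kempe Pool.Agent.Helper52.KT Pool.Agent.Helper52.KT.St
open Pool.Agent.Helper52.KR (N Zc Mn Hs)
open scoped Classical

theorem hCF : CF := by
  intro V _ s A Δ i ε hε hε1 hA
  have hs0 : 0 < s := Fin.pos i
  have hs : (0 : ℝ) < s := by exact_mod_cast hs0
  set θ : ℝ := ε / 2 with hθ
  have hθ0 : 0 < θ := by rw [hθ]; linarith
  have hθ1 : |θ| ≤ 1 := by rw [abs_of_pos hθ0, hθ]; linarith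
  have hexp : Real.exp θ - 1 ≤ θ + θ ^ 2 := by
    have := (abs_le.1 (Real.abs_exp_sub_one_sub_id_le hθ1)).2
    linarith
  -- the moment generating function
  have hmgf : ∑ ω : V → Fin s, Real.exp (θ * ((A.filter (fun y => ω y = i)).card : ℝ)) ≤
      (s : ℝ) ^ Fintype.card V * Real.exp (A.card * ((Real.exp θ - 1) / s)) := by
    have h1 : ∀ ω : V → Fin s, Real.exp (θ * ((A.filter (fun y => ω y = i)).card : ℝ)) =
        ∏ y : V, (if y ∈ A ∧ ω y = i then Real.exp θ else 1) := by
      intro ω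
      rw [Finset.prod_ite, Finset.prod_const_one, mul_one, Finset.prod_const, mul_comm,
        Real.exp_nat_mul]
      congr 2
      ext y; simp
    have h2 : ∑ ω : V → Fin s, ∏ y : V, (if y ∈ A ∧ ω y = i then Real.exp θ else 1) =
        ∏ y : V, ∑ j : Fin s, (if y ∈ A ∧ j = i then Real.exp θ else 1) := by
      rw [Finset.prod_univ_sum, Fintype.piFinset_univ]
    have h3 : ∀ y : V, ∑ j : Fin s, (if y ∈ A ∧ j = i then Real.exp θ else 1) ≤
        (s : ℝ) * (if y ∈ A then Real.exp ((Real.exp θ - 1) / s) else 1) := by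
      intro y
      by_cases hy : y ∈ A
      · have h4 : ∑ j : Fin s, (if y ∈ A ∧ j = i then Real.exp θ else 1) =
            Real.exp θ - 1 + s := by
          have : ∀ j : Fin s, (if y ∈ A ∧ j = i then Real.exp θ else (1 : ℝ)) =
              (if j = i then Real.exp θ - 1 else 0) + 1 := by
            intro j
            by_cases hj : j = i
            · simp [hy, hj]
            · simp [hj]
          rw [Finset.sum_congr rfl (fun j _ => this j), Finset.sum_add_distrib]
          simp
        rw [h4, if_pos hy]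
        have h5 := Real.add_one_le_exp ((Real.exp θ - 1) / s)
        calc Real.exp θ - 1 + s = s * ((Real.exp θ - 1) / s + 1) := by
              field_simp
          _ ≤ _ := by gcongr
      · simp [hy]
    have h6 : ∏ y : V, ∑ j : Fin s, (if y ∈ A ∧ j = i then Real.exp θ else 1) ≤
        ∏ y : V, (s : ℝ) * (if y ∈ A then Real.exp ((Real.exp θ - 1) / s) else 1) := by
      refine Finset.prod_le_prod (fun y _ => Finset.sum_nonneg (fun j _ => ?_))
        (fun y _ => h3 y)
      split_ifs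
      · exact (Real.exp_pos _).le
      · exact zero_le_one
    rw [Finset.sum_congr rfl (fun ω _ => h1 ω), h2]
    refine h6.trans (le_of_eq ?_)
    rw [Finset.prod_mul_distrib, Finset.prod_const, Finset.card_univ, Finset.prod_ite,
      Finset.prod_const_one, mul_one, Finset.prod_const, Real.exp_nat_mul]
    congr 3
    ext y; simp
  -- Markov
  set F := (Finset.univ : Finset (V → Fin s)).filter (fun ω =>
    (A.card : ℝ) / s + ε * Δ / s < ((A.filter (fun y => ω y = i)).card : ℝ)) with hF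
  have hmk : (F.card : ℝ) * Real.exp (θ * ((A.card : ℝ) / s + ε * Δ / s)) ≤
      (s : ℝ) ^ Fintype.card V * Real.exp (A.card * ((Real.exp θ - 1) / s)) := by
    refine le_trans ?_ hmgf
    calc (F.card : ℝ) * Real.exp (θ * ((A.card : ℝ) / s + ε * Δ / s))
        = ∑ ω ∈ F, Real.exp (θ * ((A.card : ℝ) / s + ε * Δ / s)) := by
          rw [Finset.sum_const, nsmul_eq_mul]
      _ ≤ ∑ ω ∈ F, Real.exp (θ * ((A.filter (fun y => ω y = i)).card : ℝ)) := by
          refine Finset.sum_le_sum (fun ω hω => ?_)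
          have := (Finset.mem_filter.1 hω).2
          exact Real.exp_le_exp.2 (mul_le_mul_of_nonneg_left this.le hθ0.le)
      _ ≤ ∑ ω : V → Fin s, Real.exp (θ * ((A.filter (fun y => ω y = i)).card : ℝ)) :=
          Finset.sum_le_sum_of_subset_of_nonneg (Finset.subset_univ _)
            (fun ω _ _ => (Real.exp_pos _).le)
  have hAr : (A.card : ℝ) ≤ Δ := by exact_mod_cast hA
  have hexpo : (A.card : ℝ) * ((Real.exp θ - 1) / s) -
      θ * ((A.card : ℝ) / s + ε * Δ / s) ≤ -(ε ^ 2 * Δ / (4 * s)) := by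
    have h7 : (A.card : ℝ) * (Real.exp θ - 1) - θ * (A.card + ε * Δ) ≤ - (ε ^ 2 * Δ / 4) := by
      have h8 : (A.card : ℝ) * (Real.exp θ - 1) ≤ A.card * (θ + θ ^ 2) :=
        mul_le_mul_of_nonneg_left hexp (Nat.cast_nonneg _)
      have h9 : (A.card : ℝ) * θ ^ 2 ≤ Δ * θ ^ 2 :=
        mul_le_mul_of_nonneg_right hAr (sq_nonneg _)
      have h10 : θ ^ 2 = ε ^ 2 / 4 := by rw [hθ]; ring
      have h11 : θ * (ε * Δ) = ε ^ 2 * Δ / 2 := by rw [hθ]; ring
      rw [h10] at h9
      nlinarith
    have h12 : (A.card : ℝ) * ((Real.exp θ - 1) / s) -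
        θ * ((A.card : ℝ) / s + ε * Δ / s) =
        ((A.card : ℝ) * (Real.exp θ - 1) - θ * (A.card + ε * Δ)) / s := by
      field_simp
    rw [h12]
    have h13 : -(ε ^ 2 * Δ / (4 * s)) = - (ε ^ 2 * Δ / 4) / s := by
      field_simp
    rw [h13]
    gcongr
  calc (F.card : ℝ) = (F.card : ℝ) * Real.exp (θ * ((A.card : ℝ) / s + ε * Δ / s)) *
        Real.exp (-(θ * ((A.card : ℝ) / s + ε * Δ / s))) := by
        rw [mul_assoc, ← Real.exp_add, add_neg_cancel, Real.exp_zero, mul_one]
    _ ≤ (s : ℝ) ^ Fintype.card V * Real.exp (A.card * ((Real.exp θ - 1) / s)) *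
        Real.exp (-(θ * ((A.card : ℝ) / s + ε * Δ / s))) :=
        mul_le_mul_of_nonneg_right hmk (Real.exp_pos _).le
    _ = Real.exp ((A.card : ℝ) * ((Real.exp θ - 1) / s) -
      θ * ((A.card : ℝ) / s + ε * Δ / s)) * (s : ℝ) ^ Fintype.card V := by
        rw [mul_assoc, ← Real.exp_add, mul_comm, ← sub_eq_add_neg]
    _ ≤ _ := mul_le_mul_of_nonneg_right (Real.exp_le_exp.2 hexpo) (by positivity)

end Pool.Agent.Helper24.KT
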