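import Pool.Agent.Helper52.KT.St

set_option autoImplicit false

namespace Pool.Agent.Helper24.KT

open Pool.Agent.Helper26.Kempe Pool.Agent.Helper52.KT Pool.Agent.Helper52.KT.St
open Pool.Agent.Helper52.KR (N Zc Mn Hs)
open scoped Classical

private theorem numIU (l s m j : ℕ) (lam out inn : ℝ) (hlam : 1 ≤ lam) (hout : 0 ≤ out)
    (hin : inn ≤ l + (s : ℝ) / 2) (hls : l + s ≤ m) (hjm : j ≤ m)
    (h0 : j = 0 → l + s + 1 ≤ m)
    (hA : j = 0 → l + 1 = m → 1 / 2 ≤ out ∧ (m = 1 → 1 ≤ out))
    (hB1 : j = 1 → m = 1 → 1 ≤ out) (hB2 : j = 1 → l = m → 1 / 2 ≤ out) :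
    5 / 2 - (lam + 1 / 2) * m - 1 * j ≤ out - lam * inn := by
  have hlsr : (l : ℝ) + s ≤ m := by exact_mod_cast hls
  have hl0 : (0 : ℝ) ≤ l := Nat.cast_nonneg _
  have hs0 : (0 : ℝ) ≤ s := Nat.cast_nonneg _
  have key : ∀ B : ℝ, inn ≤ B → 5 / 2 - (lam + 1 / 2) * m - 1 * j ≤ out - lam * B →
      5 / 2 - (lam + 1 / 2) * m - 1 * j ≤ out - lam * inn := by
    intro B hB h
    have : lam * inn ≤ lam * B := mul_le_mul_of_nonneg_left hB (by linarith)
    linarith
  rcases Nat.lt_or_ge j 1 with hj | hj
  · have hj0 : j = 0 := by omega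
    have h1 := h0 hj0
    have h1r : (l : ℝ) + s + 1 ≤ m := by exact_mod_cast h1
    subst hj0
    rcases Nat.lt_or_ge (l + 1) m with h2 | h2
    · have h2r : (l : ℝ) + 2 ≤ m := by exact_mod_cast h2
      have hm2 : (2 : ℝ) ≤ m := by linarith
      refine key (m - 3 / 2) (by linarith) ?_
      push_cast
      nlinarith
    · have h3 : l + 1 = m := by omega
      obtain ⟨h4, h5⟩ := hA rfl h3
      have hs : s = 0 := by omega
      have h3r : (l : ℝ) + 1 = m := by exact_mod_cast h3
      refine key (m - 1) (by rw [hs] at hin; push_cast at hin; linarith) ?_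
      rcases Nat.lt_or_ge m 2 with h6 | h6
      · have h7 : m = 1 := by omega
        have h8 := h5 h7
        rw [h7]; push_cast; linarith
      · have h6r : (2 : ℝ) ≤ m := by exact_mod_cast h6
        push_cast
        nlinarith
  · rcases Nat.lt_or_ge j 2 with hj2 | hj2
    · have hj1 : j = 1 := by omega
      subst hj1
      rcases Nat.lt_or_ge m 2 with h6 | h6
      · have h7 : m = 1 := by omega
        have h8 := hB1 rfl h7
        subst h7
        refine key 1 (by push_cast at hlsr; linarith) ?_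
        push_cast; linarith
      · have h6r : (2 : ℝ) ≤ m := by exact_mod_cast h6
        rcases Nat.lt_or_ge l m with h9 | h9
        · have h9r : (l : ℝ) + 1 ≤ m := by exact_mod_cast h9
          refine key (m - 1 / 2) (by linarith) ?_
          push_cast; nlinarith
        · have h10 := hB2 rfl (by omega)
          refine key m (by linarith) ?_
          push_cast; nlinarith
    · have hj2r : (2 : ℝ) ≤ j := by exact_mod_cast hj2
      have hjmr : (j : ℝ) ≤ m := by exact_mod_cast hjm
      refine key m (by linarith) ?_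
      nlinarith

theorem hIU : IU := by
  intro nl wb st lr ub ex nb lu V _ k G M f o lam hM hlam hmn z y0 L hv c hco hcz hcy hcx hcard
  have hf : Proper G f := hmn.1
  have harc := (vd_cons.1 hv).1
  have hzo : f z ≠ o := harc.2.1
  have hlu := lu V k G M f o z y0 L c
  set Sz := S G f z c with hSz
  have hφ1 : ∀ n, φU n ≤ 1 := by intro n; unfold φU; split_ifs <;> norm_num
  have hφ2 : ∀ n, 1 / 2 ≤ φU n := by intro n; unfold φU; split_ifs <;> norm_num
  have hφ0 : ∀ n, 0 ≤ φU n := fun n => by linarith [hφ2 n]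
  set Lf := Sz.filter (fun y => Bc G f y z = {y}) with hLf
  set Tt := Sz.filter (fun y => Arc G (W1 G) M f o y z ∧ Bc G f y z ≠ {y}) with hTt
  set J := Sz ∩ N G y0 with hJ
  have hcol : ∀ y ∈ Sz, G.Adj z y ∧ f y = c := fun y hy => mem_S.1 hy
  -- disjointness
  have hdisj : Disjoint Lf Tt := by
    rw [Finset.disjoint_left]
    intro y hy hy'
    exact (Finset.mem_filter.1 hy').2.2 (Finset.mem_filter.1 hy).2
  have hsub : Lf ∪ Tt ⊆ Sz := Finset.union_subset (Finset.filter_subset _ _)
    (Finset.filter_subset _ _)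
  have hls : Lf.card + Tt.card ≤ Sz.card := by
    rw [← Finset.card_union_of_disjoint hdisj]; exact Finset.card_le_card hsub
  -- incoming weight
  have hin : ∑ y ∈ Sz, wt G (W1 G) M φU f o y z ≤ (Lf.card : ℝ) + (Tt.card : ℝ) / 2 := by
    have h1 : ∀ y ∈ Sz, wt G (W1 G) M φU f o y z ≤
        (if Bc G f y z = {y} then (1 : ℝ) else 0) +
        (if Arc G (W1 G) M f o y z ∧ Bc G f y z ≠ {y} then (1 / 2 : ℝ) else 0) := by
      intro y hy
      by_cases h2 : Bc G f y z = {y}
      · rw [if_pos h2]
        have := wt_le_one (G := G) (W := W1 G) (M := M) (f := f) (o := o) hφ1 y z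
        have h3 : (0 : ℝ) ≤
          (if Arc G (W1 G) M f o y z ∧ Bc G f y z ≠ {y} then (1 / 2 : ℝ) else 0) := by
          split_ifs <;> norm_num
        linarith
      · by_cases h3 : Arc G (W1 G) M f o y z
        · rw [wt_arc h3, if_neg h2, if_pos ⟨h3, h2⟩]
          have h4 : ¬ (Bc G f y z).card ≤ 1 := by
            intro h5
            apply h2
            refine Finset.eq_singleton_iff_unique_mem.2 ⟨self_mem_Bc y z, fun x hx => ?_⟩
            exact Finset.card_le_one.1 h5 x hx y (self_mem_Bc y z)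
          unfold φU
          rw [if_neg h4]; norm_num
        · rw [wt_zero h3, if_neg h2, if_neg (fun h => h3 h.1)]; norm_num
    refine (Finset.sum_le_sum h1).trans (le_of_eq ?_)
    rw [Finset.sum_add_distrib, ← Finset.sum_filter, ← Finset.sum_filter, Finset.sum_const,
      Finset.sum_const]
    simp only [nsmul_eq_mul, mul_one]
    rw [mul_one_div]
  -- outgoing weight is nonnegative
  set out := ∑ b ∈ Sz.filter (fun b => Vd G (W1 G) M f o (b :: z :: y0 :: L)),
    wt G (W1 G) M φU f o z b with hout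
  have hout0 : 0 ≤ out := Finset.sum_nonneg (fun b _ => wt_nonneg hφ0 z b)
  -- (a)
  have ha : J.card = 0 → Lf.card + Tt.card + 1 ≤ Sz.card := by
    intro hJ0
    by_contra hlt
    have hge : Sz.card ≤ (Lf ∪ Tt).card := by
      rw [Finset.card_union_of_disjoint hdisj]; omega
    have heq : Lf ∪ Tt = Sz := Finset.eq_of_subset_of_card_le hsub hge
    have hJe : J = ∅ := Finset.card_eq_zero.1 hJ0
    have hall : ∀ y ∈ Sz, (Bc G f y z).card ≤ M ∧ Bc G f y z ⊆ W1 G y := by
      intro y hy
      rw [← heq, Finset.mem_union] at hy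
      rcases hy with hy | hy
      · have := (Finset.mem_filter.1 hy).2
        rw [this]
        refine ⟨by rw [Finset.card_singleton]; omega, ?_⟩
        intro x hx
        rw [Finset.mem_singleton] at hx
        rw [hx]; exact Finset.mem_insert_self _ _
      · have := (Finset.mem_filter.1 hy).2.1
        exact ⟨this.2.2.1, this.2.2.2.1⟩
    refine nb nl wb st lr V k G (W1 G) M f o z y0 L c hmn hv hco hcz hcy hcx
      (fun y hy => (hall y hy).1) ?_
    intro y hy x hx
    have hyc := (hcol y hy).2
    refine hlu x hf hv hcz hcy ?_ ?_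
    · rcases Bc_col hx with h | h
      · right; rw [h, hyc]
      · left; exact h
    · rintro ⟨h1, h2⟩
      rcases Finset.mem_insert.1 ((hall y hy).2 hx) with h3 | h3
      · rw [h3] at h2
        have : y ∈ J := Finset.mem_inter.2 ⟨hy, Pool.Agent.Helper52.KR.mem_N.2 h2⟩
        rw [hJe] at this
        exact absurd this (Finset.notMem_empty _)
      · exact hf y x (Pool.Agent.Helper52.KR.mem_N.1 h3) (by rw [hyc, h1])
  -- (b)
  have hb : ∀ b ∈ Sz, (∀ y ∈ Sz, y ≠ b → y ∈ Lf) → (∀ y ∈ J, y = b) →
      1 / 2 ≤ out ∧ (Sz.card = 1 → 1 ≤ out) := by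
    intro b hbS hL hJb
    obtain ⟨hzb, hfb⟩ := hcol b hbS
    have hB : Bc G f z b ⊆ insert z (Sz.erase b) := by
      intro x hx
      have h1 := ub V k G f z b hf hzb hx
      rw [Finset.mem_insert, Finset.mem_biUnion] at h1
      rw [Finset.mem_insert]
      rcases h1 with h1 | ⟨y, hy, hxy⟩
      · exact Or.inl h1
      · right
        rw [Finset.mem_erase, hfb] at hy
        have h2 := (Finset.mem_filter.1 (hL y hy.2 hy.1)).2
        rw [h2, Finset.mem_singleton] at hxy
        rw [hxy, Finset.mem_erase]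
        exact hy
    have hcB : (Bc G f z b).card ≤ Sz.card := by
      refine (Finset.card_le_card hB).trans ((Finset.card_insert_le _ _).trans ?_)
      rw [Finset.card_erase_of_mem hbS]
      have := Finset.card_pos.2 ⟨b, hbS⟩
      omega
    have hArc : Arc G (W1 G) M f o z b := by
      refine ⟨hzb, by rw [hfb]; exact hco, hcB.trans hcard, ?_, fun h => absurd h hzo⟩
      intro x hx
      rcases Finset.mem_insert.1 (hB hx) with h | h
      · rw [h]; exact Finset.mem_insert_self _ _
      · refine Finset.mem_insert_of_mem (Pool.Agent.Helper52.KR.mem_N.2 ?_)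
        exact (hcol x (Finset.mem_of_mem_erase h)).1
    have hVd : Vd G (W1 G) M f o (b :: z :: y0 :: L) := by
      refine ex nl wb V k G (W1 G) M f o z y0 L c b hf hv hcz hcy hcx hbS hArc ?_
      intro x hx
      rcases Finset.mem_insert.1 (hB hx) with h | h
      · rw [h]
        exact hlu z hf hv hcz hcy (Or.inl rfl) (fun h' => hcz h'.1.symm)
      · have hxS := Finset.mem_of_mem_erase h
        refine hlu x hf hv hcz hcy (Or.inr (hcol x hxS).2) ?_
        rintro ⟨_, h2⟩
        exact (Finset.mem_erase.1 h).1 (hJb x (Finset.mem_inter.2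
          ⟨hxS, Pool.Agent.Helper52.KR.mem_N.2 h2⟩))
    have hmem : b ∈ Sz.filter (fun b => Vd G (W1 G) M f o (b :: z :: y0 :: L)) :=
      Finset.mem_filter.2 ⟨hbS, hVd⟩
    have hle : wt G (W1 G) M φU f o z b ≤ out :=
      Finset.single_le_sum (f := fun b => wt G (W1 G) M φU f o z b)
        (fun b _ => wt_nonneg hφ0 z b) hmem
    rw [wt_arc hArc] at hle
    refine ⟨(hφ2 _).trans hle, fun h1 => ?_⟩
    have h2 : (Bc G f z b).card ≤ 1 := by omega
    have h3 : φU (Bc G f z b).card = 1 := by unfold φU; rw [if_pos h2]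
    rw [← h3]; exact hle
  refine numIU Lf.card Tt.card Sz.card J.card lam out _ hlam hout0 hin hls
    (Finset.card_le_card Finset.inter_subset_left) ha ?_ ?_ ?_
  · intro hJ0 hlm
    have hJe : J = ∅ := Finset.card_eq_zero.1 hJ0
    have h1 : (Sz \ Lf).card = 1 := by
      have h0 : (Sz \ Lf).card = Sz.card - Lf.card :=
        Finset.card_sdiff_of_subset (Finset.filter_subset _ _)
      rw [h0]; omega
    obtain ⟨b, hb1⟩ := Finset.card_eq_one.1 h1
    have hbm : b ∈ Sz \ Lf := by rw [hb1]; exact Finset.mem_singleton_self _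
    refine hb b (Finset.mem_sdiff.1 hbm).1 ?_ ?_
    · intro y hy hyb
      by_contra hyL
      have : y ∈ Sz \ Lf := Finset.mem_sdiff.2 ⟨hy, hyL⟩
      rw [hb1, Finset.mem_singleton] at this
      exact hyb this
    · intro y hy; rw [hJe] at hy; exact absurd hy (Finset.notMem_empty _)
  · intro hJ1 hm1
    obtain ⟨b, hb1⟩ := Finset.card_eq_one.1 hm1
    refine (hb b (by rw [hb1]; exact Finset.mem_singleton_self _) ?_ ?_).2 hm1
    · intro y hy hyb
      rw [hb1, Finset.mem_singleton] at hy
      exact absurd hy hyb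
    · intro y hy
      have := (Finset.mem_inter.1 hy).1
      rw [hb1, Finset.mem_singleton] at this
      exact this
  · intro hJ1 hlm
    obtain ⟨b, hb1⟩ := Finset.card_eq_one.1 hJ1
    have hbJ : b ∈ J := by rw [hb1]; exact Finset.mem_singleton_self _
    have hLS : Lf = Sz := Finset.eq_of_subset_of_card_le (Finset.filter_subset _ _) hlm.ge
    refine (hb b (Finset.mem_inter.1 hbJ).1 ?_ ?_).1
    · intro y hy _; rw [hLS]; exact hy
    · intro y hy
      rw [hb1, Finset.mem_singleton] at hy
      exact hy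

end Pool.Agent.Helper24.KT
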