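import Pool.Agent.Helper52.KT.St

set_option autoImplicit false

namespace Pool.Agent.Helper24.KT

open Pool.Agent.Helper26.Kempe Pool.Agent.Helper52.KT Pool.Agent.Helper52.KT.St
open Pool.Agent.Helper52.KR (N Zc Mn Hs)
open scoped Classical

theorem hNB : NB := by
  intro nl wb st lr V _ k G W M f o z y0 L c hmn hv hco hcz hcy hcx hsm hlac
  have hf : Proper G f := hmn.1
  have harc := (vd_cons.1 hv).1
  have hzo : f z ≠ o := harc.2.1
  have hwb := (wb V k G f M z c hf hcz).2
  set C : Finset V := insert z ((S G f z c).biUnion (fun y => Bc G f y z)) with hC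
  have hmemC : ∀ x, x ∈ C ↔ x = z ∨ ∃ y ∈ S G f z c, x ∈ Bc G f y z := by
    intro x; rw [hC, Finset.mem_insert, Finset.mem_biUnion]
  have hcol : ∀ x ∈ C, f x = f z ∨ f x = c := by
    intro x hx
    rcases (hmemC x).1 hx with rfl | ⟨y, hy, hx⟩
    · exact Or.inl rfl
    · have hyc := (mem_S.1 hy).2
      rcases Bc_col hx with h | h
      · right; rw [h, hyc]
      · left; exact h
  have hclosed : ∀ x ∈ C, ∀ y, G.Adj x y → (f y = f z ∨ f y = c) → y ∈ C := by
    intro x hx w hxw hw
    rcases (hmemC x).1 hx with rfl | ⟨y, hy, hx⟩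
    · rcases hw with hw | hw
      · exact absurd hw.symm (hf x w hxw)
      · exact (hmemC w).2 (Or.inr ⟨w, mem_S.2 ⟨hxw, hw⟩, self_mem_Bc w x⟩)
    · have hyc := (mem_S.1 hy).2
      by_cases hwz : w = z
      · exact (hmemC w).2 (Or.inl hwz)
      · refine (hmemC w).2 (Or.inr ⟨y, hy, Bc_step hx hxw hwz ?_⟩)
        rcases hw with h | h
        · right; exact h
        · left; rw [h, hyc]
  have key : ∀ x ∈ C, x ∉ y0 :: L ∧ Equiv.swap (f z) c (f x) ∉ Fb G f x (z :: y0 :: L) := by
    intro x hx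
    rcases (hmemC x).1 hx with h | ⟨y, hy, hx⟩
    · subst h
      refine nl V k G W M f o x y0 L c x 0 hf hv hcz hcy hcx (Nat.zero_le _) (by simp [Wk]) ?_
      intro κ hκ _ h
      rw [Equiv.swap_apply_left] at h
      rcases Bc_col hκ with h1 | h1
      · rw [h1, Equiv.swap_apply_left] at h; exact hcz h
      · rw [h1, Equiv.swap_apply_right] at h; exact hcy h
    · obtain ⟨n, hn, hxn⟩ := hwb y hy (hsm y hy) x hx
      exact nl V k G W M f o z y0 L c x n hf hv hcz hcy hcx hn hxn (hlac y hy x hx)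
  obtain ⟨g, h1, _, h2⟩ := lr st V k G W M o (y0 :: L) f z c C hf hv hco hcz
    ((hmemC z).2 (Or.inl rfl)) hcol hclosed (fun x hx => (key x hx).1)
    (fun x hx => (key x hx).2) (fun h => absurd h hzo)
  exact absurd (hmn.2 g h1) (not_le.2 h2)

end Pool.Agent.Helper24.KT
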